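import Pool.Agent.Helper32.SO.MemCell

/-!
# SO-14: the intersection of two regular cells is a common face (MP_eb8c5c_co)
-/

set_option autoImplicit false

namespace Pool.Agent.Helper28.SO

/-- the value `w i k - y k` at the colours of `argm w y i` is the minimum -/
private theorem argm_spec {n d : ℕ} (w : Fin n → Fin d → ℝ) (y : Fin d → ℝ) (i : Fin n)
    (k : Fin d) : k ∈ argm w y i ↔ ∀ k', w i k - y k ≤ w i k' - y k' := by
  unfold argm
  rw [Finset.mem_filter]
  exact and_iff_right (Finset.mem_univ _)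

private theorem sum_sub_col {n d : ℕ} (w : Fin n → Fin d → ℝ) (y : Fin d → ℝ)
    (lam : Fin n → Fin d → ℝ) : ∑ i, ∑ c, (w i c - y c) * lam i c =
      (∑ i, ∑ c, w i c * lam i c) - ∑ c, y c * ∑ i, lam i c := by
  have h : ∑ c, y c * ∑ i, lam i c = ∑ i, ∑ c, y c * lam i c := by
    rw [Finset.sum_comm]
    exact Finset.sum_congr rfl fun c _ => Finset.mul_sum _ _ _
  rw [h, ← Finset.sum_sub_distrib]
  refine Finset.sum_congr rfl fun i _ => ?_
  rw [← Finset.sum_sub_distrib]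
  exact Finset.sum_congr rfl fun c _ => by ring

/-- row by row: the representation supported on the argmin is optimal -/
private theorem row_le {n d : ℕ} (w : Fin n → Fin d → ℝ) (y : Fin d → ℝ)
    (lam mu : Fin n → Fin d → ℝ) (h1 : ∀ i, ∑ c, lam i c = 1)
    (h2 : ∀ i, ∀ c, c ∉ argm w y i → lam i c = 0) (m0 : ∀ i c, 0 ≤ mu i c)
    (m1 : ∀ i, ∑ c, mu i c = 1) (i : Fin n) :
    ∑ c, (w i c - y c) * lam i c ≤ ∑ c, (w i c - y c) * mu i c ∧
      (∑ c, (w i c - y c) * lam i c = ∑ c, (w i c - y c) * mu i c →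
        ∀ c, c ∉ argm w y i → mu i c = 0) := by
  have hne : ∃ c, c ∈ argm w y i := by
    by_contra hc
    push Not at hc
    have := h1 i
    rw [Finset.sum_eq_zero fun c _ => h2 i c (hc c)] at this
    exact zero_ne_one this
  obtain ⟨c₀, hc₀⟩ := hne
  have ha := (argm_spec w y i c₀).1 hc₀
  have hl : ∑ c, (w i c - y c) * lam i c = w i c₀ - y c₀ := by
    have : ∀ c, (w i c - y c) * lam i c = (w i c₀ - y c₀) * lam i c := by
      intro c
      by_cases hc : c ∈ argm w y i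
      · have e : w i c - y c = w i c₀ - y c₀ :=
          le_antisymm ((argm_spec w y i c).1 hc c₀) (ha c)
        rw [e]
      · rw [h2 i c hc, mul_zero, mul_zero]
    rw [Finset.sum_congr rfl fun c _ => this c, ← Finset.mul_sum, h1 i, mul_one]
  have hm : ∑ c, (w i c - y c) * mu i c - (w i c₀ - y c₀) =
      ∑ c, ((w i c - y c) - (w i c₀ - y c₀)) * mu i c := by
    have e1 : w i c₀ - y c₀ = ∑ c, (w i c₀ - y c₀) * mu i c := by
      rw [← Finset.mul_sum, m1 i, mul_one]
    rw [e1, ← Finset.sum_sub_distrib, ← e1]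
    exact Finset.sum_congr rfl fun c _ => by ring
  have hnn : ∀ c, 0 ≤ ((w i c - y c) - (w i c₀ - y c₀)) * mu i c := fun c =>
    mul_nonneg (sub_nonneg.2 (ha c)) (m0 i c)
  refine ⟨?_, ?_⟩
  · rw [hl, ← sub_nonneg, hm]
    exact Finset.sum_nonneg fun c _ => hnn c
  · intro he c hc
    rw [hl] at he
    rw [← he, sub_self] at hm
    have h3 := (Finset.sum_eq_zero_iff_of_nonneg fun c _ => hnn c).1 hm.symm c (Finset.mem_univ c)
    rcases mul_eq_zero.1 h3 with h4 | h4
    · exfalso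
      apply hc
      rw [argm_spec]
      intro k'
      have h5 : w i c - y c = w i c₀ - y c₀ := by linarith
      rw [h5]
      exact ha k'
    · exact h4

/-- complementary slackness -/
private theorem supp_both {n d : ℕ} (w : Fin n → Fin d → ℝ) (y z : Fin d → ℝ)
    (lam mu : Fin n → Fin d → ℝ) (l0 : ∀ i c, 0 ≤ lam i c) (l1 : ∀ i, ∑ c, lam i c = 1)
    (l2 : ∀ i, ∀ c, c ∉ argm w y i → lam i c = 0) (m0 : ∀ i c, 0 ≤ mu i c)
    (m1 : ∀ i, ∑ c, mu i c = 1) (m2 : ∀ i, ∀ c, c ∉ argm w z i → mu i c = 0)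
    (hcol : ∀ c, ∑ i, lam i c = ∑ i, mu i c) :
    ∀ i, ∀ c, c ∉ argm w y i → mu i c = 0 := by
  have hA := fun i => row_le w y lam mu l1 l2 m0 m1 i
  have hB := fun i => row_le w z mu lam m1 m2 l0 l1 i
  have h1 : ∑ i, ∑ c, (w i c - y c) * lam i c ≤ ∑ i, ∑ c, (w i c - y c) * mu i c :=
    Finset.sum_le_sum fun i _ => (hA i).1
  have h2 : ∑ i, ∑ c, (w i c - z c) * mu i c ≤ ∑ i, ∑ c, (w i c - z c) * lam i c :=
    Finset.sum_le_sum fun i _ => (hB i).1
  rw [sum_sub_col, sum_sub_col] at h2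
  have e1 : ∑ c, z c * ∑ i, mu i c = ∑ c, z c * ∑ i, lam i c :=
    Finset.sum_congr rfl fun c _ => by rw [hcol c]
  have e2 : ∑ c, y c * ∑ i, mu i c = ∑ c, y c * ∑ i, lam i c :=
    Finset.sum_congr rfl fun c _ => by rw [hcol c]
  have h3 : ∑ i, ∑ c, (w i c - y c) * mu i c = ∑ i, ∑ c, (w i c - y c) * lam i c := by
    refine le_antisymm ?_ h1
    rw [sum_sub_col, sum_sub_col]
    linarith
  have h4 : ∑ i, (∑ c, (w i c - y c) * mu i c - ∑ c, (w i c - y c) * lam i c) = 0 := by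
    rw [Finset.sum_sub_distrib, h3, sub_self]
  have h5 := (Finset.sum_eq_zero_iff_of_nonneg fun i _ => sub_nonneg.2 (hA i).1).1 h4
  intro i
  exact (hA i).2 (sub_eq_zero.1 (h5 i (Finset.mem_univ i))).symm

/-- if both argmins meet, the colours of the first one which are optimal for `y - z` are the common
colours -/
private theorem filter_argm {n d : ℕ} (w : Fin n → Fin d → ℝ) (y z : Fin d → ℝ) (i : Fin n)
    (h : ∃ c, c ∈ argm w y i ∧ c ∈ argm w z i) (k : Fin d) :
    (k ∈ argm w y i ∧ ∀ k' ∈ argm w y i, (y k - z k) ≤ (y k' - z k')) ↔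
      (k ∈ argm w y i ∧ k ∈ argm w z i) := by
  obtain ⟨c, hc1, hc2⟩ := h
  have hcz := (argm_spec w z i c).1 hc2
  have hcy := (argm_spec w y i c).1 hc1
  constructor
  · rintro ⟨h1, h2⟩
    refine ⟨h1, ?_⟩
    rw [argm_spec]
    intro k'
    have h3 := h2 c hc1
    have h4 := (argm_spec w y i k).1 h1 c
    have h6 := hcz k'
    linarith
  · rintro ⟨h1, h2⟩
    refine ⟨h1, fun k' hk' => ?_⟩
    have h3 := (argm_spec w z i k).1 h2 k'
    have h4 := (argm_spec w y i k').1 hk' k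
    linarith

/-- SO-14. -/
theorem cell_inter {n d : ℕ} (w : Fin n → Fin d → ℝ) (y z : Fin d → ℝ) :
    cell (argm w y) ∩ cell (argm w z) = ∅ ∨
      ∃ l m : Fin d → ℝ, ∀ F : Fin n → Finset (Fin d),
        F = (fun i => (argm w y i).filter (fun k => ∀ k' ∈ argm w y i, l k ≤ l k')) →
        (F = (fun i => (argm w z i).filter (fun k => ∀ k' ∈ argm w z i, m k ≤ m k')) ∧
          cell (argm w y) ∩ cell (argm w z) = cell F) := by
  by_cases hemp : cell (argm w y) ∩ cell (argm w z) = ∅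
  · exact Or.inl hemp
  refine Or.inr ⟨fun k => y k - z k, fun k => z k - y k, ?_⟩
  rw [← ne_eq, ← Set.nonempty_iff_ne_empty] at hemp
  obtain ⟨x₀, hx1, hx2⟩ := hemp
  have hmeet : ∀ i, ∃ c, c ∈ argm w y i ∧ c ∈ argm w z i := by
    obtain ⟨lam, l0, l1, l2, l3⟩ := (mem_cell_iff _ _).1 hx1
    obtain ⟨mu, m0, m1, m2, m3⟩ := (mem_cell_iff _ _).1 hx2
    have h := supp_both w y z lam mu l0 l1 l2 m0 m1 m2 (fun c => by rw [← l3, ← m3])
    intro i
    by_contra hc
    push Not at hc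
    have h1 := m1 i
    rw [Finset.sum_eq_zero] at h1
    · exact zero_ne_one h1
    · intro c _
      by_cases hcy : c ∈ argm w y i
      · exact m2 i c (hc c hcy)
      · exact h i c hcy
  intro F hF
  have hF1 : ∀ i k, k ∈ F i ↔ k ∈ argm w y i ∧ k ∈ argm w z i := by
    intro i k
    rw [hF, ← filter_argm w y z i (hmeet i) k]
    exact Finset.mem_filter
  refine ⟨?_, ?_⟩
  · funext i
    ext k
    rw [hF1]
    have h1 := filter_argm w z y i (by
      obtain ⟨c, hc⟩ := hmeet i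
      exact ⟨c, hc.2, hc.1⟩) k
    simp only [Finset.mem_filter]
    rw [and_comm]
    exact h1.symm
  · ext x
    constructor
    · rintro ⟨h1, h2⟩
      obtain ⟨lam, l0, l1, l2, l3⟩ := (mem_cell_iff _ _).1 h1
      obtain ⟨mu, m0, m1, m2, m3⟩ := (mem_cell_iff _ _).1 h2
      have h := supp_both w y z lam mu l0 l1 l2 m0 m1 m2 (fun c => by rw [← l3, ← m3])
      refine (mem_cell_iff _ _).2 ⟨mu, m0, m1, fun i c hc => ?_, m3⟩
      rw [hF1, not_and_or] at hc
      rcases hc with hc | hc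
      · exact h i c hc
      · exact m2 i c hc
    · intro hx
      obtain ⟨mu, m0, m1, m2, m3⟩ := (mem_cell_iff _ _).1 hx
      refine ⟨(mem_cell_iff _ _).2 ⟨mu, m0, m1, fun i c hc => m2 i c ?_, m3⟩,
        (mem_cell_iff _ _).2 ⟨mu, m0, m1, fun i c hc => m2 i c ?_, m3⟩⟩
      · rw [hF1]
        exact fun h => hc h.1
      · rw [hF1]
        exact fun h => hc h.2

end Pool.Agent.Helper28.SO
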